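import Pool.Agent.Work.MP_d1e9a6_pr_helper70.Index

/-!
# Block A2: a finite homology group has logarithmic size polynomial in the number of vertices
-/

set_option autoImplicit false

namespace Pool.Agent.Work.MP_d1e9a6_pr.H70

open Finset

section

variable {V : Type}

lemma cone_apply_cons (v : V) (z : Ch V) (l : List V) : cone v z (v :: l) = z l := by
  unfold cone
  rw [Finsupp.lmapDomain_apply]
  exact Finsupp.mapDomain_apply (List.cons_injective) z l

lemma cone_apply_not (v : V) (z : Ch V) (l : List V) (h : l ∉ Set.range (List.cons v)) : cone v z l = 0 := by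
  unfold cone
  rw [Finsupp.lmapDomain_apply]
  exact Finsupp.mapDomain_of_notMem_range z l h

lemma abs_bd_le (l : List V) : ∀ l' : List V, |bd l l'| ≤ (l.length : ℤ) := by
  classical
  induction l with
  | nil => intro l'; simp
  | cons v l ih =>
    intro l'
    rw [bd_cons, Finsupp.sub_apply]
    have h1 : |(Finsupp.single l (1:ℤ)) l'| ≤ 1 := by
      rw [Finsupp.single_apply]
      split_ifs <;> simp
    have h2 : |cone v (bd l) l'| ≤ (l.length : ℤ) := by
      by_cases h : l' ∈ Set.range (List.cons v)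
      · obtain ⟨l'', rfl⟩ := h
        rw [cone_apply_cons]; exact ih l''
      · rw [cone_apply_not v _ _ h]; simp
    calc |(Finsupp.single l (1:ℤ)) l' - cone v (bd l) l'| ≤ |(Finsupp.single l (1:ℤ)) l'| + |cone v (bd l) l'| :=
          abs_sub _ _
      _ ≤ 1 + l.length := add_le_add h1 h2
      _ = ((v :: l).length : ℤ) := by simp [add_comm]

/-- rational coordinates -/
noncomputable def coQ (F : List V → Prop) (m : ℕ) : Ch V →ₗ[ℤ] (SL F m → ℚ) where
  toFun z := fun l => ((z l.1 : ℤ) : ℚ)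
  map_add' a b := by funext l; simp
  map_smul' c a := by funext l; simp

lemma coQ_apply (F : List V → Prop) (m : ℕ) (z : Ch V) (l : SL F m) : coQ F m z l = ((z l.1 : ℤ) : ℚ) := rfl

/-- columns -/
noncomputable def col (F : List V → Prop) (m : ℕ) (y : SL F (m + 1)) : SL F m → ℚ := coQ F m (bd y.1)

lemma mem_span_col {F : List V → Prop} {m : ℕ} {z : Ch V} {n : ℕ} (hn : n ≠ 0) (h : n • z ∈ Bd F m) :
    coQ F m z ∈ Submodule.span ℚ (Set.range (col F m)) := by
  obtain ⟨w, hw, hwz⟩ := h
  have h1 : (coQ F m ∘ₗ D) w ∈ (Submodule.span ℚ (Set.range (col F m))).restrictScalars ℤ := by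
    refine map_CF_le (coQ F m ∘ₗ D) ?_ hw
    intro l hl hm
    rw [LinearMap.comp_apply, D_single_one]
    exact Submodule.subset_span ⟨⟨l, hl, hm⟩, rfl⟩
  rw [LinearMap.comp_apply, hwz, map_nsmul] at h1
  have h2 : (n : ℚ)⁻¹ • (n • coQ F m z) ∈ Submodule.span ℚ (Set.range (col F m)) :=
    Submodule.smul_mem _ _ h1
  have h3 : (n : ℚ)⁻¹ • (n • coQ F m z) = coQ F m z := by
    rw [← Nat.cast_smul_eq_nsmul ℚ, smul_smul, inv_mul_cancel₀ (by exact_mod_cast hn), one_smul]
  rwa [h3] at h2

/-- the determinant step -/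
lemma exists_det [Fintype V] {F : List V → Prop} (hF : SubClosed F) (m : ℕ)
    (hidx : (Bd F m).toAddSubgroup.relIndex (Zc F m).toAddSubgroup ≠ 0) :
    ∃ d : ℕ, d ≠ 0 ∧ (d ≤ (Fintype.card (SL F m) * (m + 1)) ^ (2 * Fintype.card (SL F m))) ∧
      ∀ z ∈ Zc F m, (d : ℤ) • z ∈ Bd F m := by
  classical
  obtain ⟨κ, a, ha, hspan, hli⟩ := exists_linearIndependent' ℚ (col F m)
  have : Finite κ := Finite.of_injective a ha
  have : Fintype κ := Fintype.ofFinite κ
  set r := Fintype.card (SL F m) with hr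
  have hcard : Fintype.card κ ≤ r := by
    have h := hli.fintype_card_le_finrank
    rwa [Module.finrank_fintype_fun_eq_card] at h
  set A : Matrix (SL F m) κ ℤ := fun l i => bd (a i).1 l.1 with hA
  set G : Matrix κ κ ℤ := A.transpose * A with hG
  have hAv : ∀ v : κ → ℤ, A.mulVec v = 0 → v = 0 := by
    intro v hv
    have h1 : ∑ i, (v i : ℚ) • (col F m ∘ a) i = 0 := by
      funext l
      have h2 := congrFun hv l
      simp only [Matrix.mulVec, dotProduct, Pi.zero_apply] at h2
      rw [Finset.sum_apply]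
      simp only [Pi.smul_apply, Function.comp_apply, smul_eq_mul, Pi.zero_apply, col, coQ_apply]
      have h3 : ((∑ i, A l i * v i : ℤ) : ℚ) = 0 := by rw [h2]; simp
      push_cast at h3
      rw [← h3]
      exact Finset.sum_congr rfl fun i _ => mul_comm _ _
    have h2 := Fintype.linearIndependent_iff.mp hli (fun i => (v i : ℚ)) h1
    funext i
    exact_mod_cast h2 i
  have hdet : G.det ≠ 0 := by
    intro h0
    obtain ⟨v, hv0, hv⟩ := Matrix.exists_mulVec_eq_zero_iff.mpr h0
    apply hv0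
    apply hAv
    have h1 : dotProduct (A.mulVec v) (A.mulVec v) = 0 := by
      rw [Matrix.dotProduct_mulVec, ← Matrix.mulVec_transpose, Matrix.mulVec_mulVec, ← hG, hv,
        zero_dotProduct]
    exact dotProduct_self_eq_zero.mp h1
  have hA_le : ∀ l i, |A l i| ≤ (m + 1 : ℤ) := by
    intro l i
    have h := abs_bd_le (a i).1 l.1
    rw [(a i).2.2] at h
    exact_mod_cast h
  have hG_le : ∀ i j, |G i j| ≤ (r : ℤ) * (m + 1) ^ 2 := by
    intro i j
    have e : G i j = ∑ l, A l i * A l j := by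
      rw [hG, Matrix.mul_apply]
      rfl
    rw [e]
    calc |∑ l, A l i * A l j| ≤ ∑ l, |A l i * A l j| := Finset.abs_sum_le_sum_abs _ _
      _ ≤ ∑ _l : SL F m, ((m : ℤ) + 1) ^ 2 := by
          apply Finset.sum_le_sum
          intro l _
          rw [abs_mul, sq]
          exact mul_le_mul (hA_le l i) (hA_le l j) (abs_nonneg _) (by positivity)
      _ = (r : ℤ) * (m + 1) ^ 2 := by
          rw [Finset.sum_const, Finset.card_univ, nsmul_eq_mul]
  have hdet_le : |G.det| ≤ ((r : ℤ) * (m + 1)) ^ (2 * r) := by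
    have h := Matrix.det_le (A := G) (abv := AbsoluteValue.abs) (x := (r : ℤ) * (m + 1) ^ 2) hG_le
    change |G.det| ≤ _ at h
    refine h.trans ?_
    rcases Nat.eq_zero_or_pos (Fintype.card κ) with h0 | h0
    · rw [h0]
      rcases Nat.eq_zero_or_pos r with hr0 | hr0
      · rw [hr0]; simp
      · simp only [Nat.factorial_zero, pow_zero, one_smul]
        have : (1 : ℤ) ≤ (r : ℤ) * (m + 1) := by
          have h1 : (1 : ℤ) ≤ r := by exact_mod_cast hr0
          have h2 : (1 : ℤ) ≤ (m : ℤ) + 1 := by linarith [Int.natCast_nonneg m]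
          nlinarith
        exact one_le_pow₀ this
    · have hr0 : 0 < r := lt_of_lt_of_le h0 hcard
      have h1 : (1 : ℤ) ≤ r := by exact_mod_cast hr0
      have hm1 : (1 : ℤ) ≤ (m : ℤ) + 1 := by linarith [Int.natCast_nonneg m]
      have hbase : (1 : ℤ) ≤ (r : ℤ) * (m + 1) ^ 2 := by nlinarith [one_le_pow₀ (n := 2) hm1]
      have hfac : ((Fintype.card κ).factorial : ℤ) ≤ (r : ℤ) ^ r := by
        have h2 : (Fintype.card κ).factorial ≤ r ^ r :=
          (Nat.factorial_le hcard).trans (Nat.factorial_le_pow r)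
        exact_mod_cast h2
      rw [nsmul_eq_mul]
      calc ((Fintype.card κ).factorial : ℤ) * ((r : ℤ) * (m + 1) ^ 2) ^ (Fintype.card κ)
          ≤ (r : ℤ) ^ r * ((r : ℤ) * (m + 1) ^ 2) ^ r := by
            apply mul_le_mul hfac (pow_le_pow_right₀ hbase hcard) (by positivity) (by positivity)
        _ = ((r : ℤ) * (m + 1)) ^ (2 * r) := by
            rw [pow_mul, ← mul_pow]
            congr 1
            ring
  refine ⟨G.det.natAbs, Int.natAbs_ne_zero.mpr hdet, ?_, ?_⟩
  · have h1 : ((G.det.natAbs : ℕ) : ℤ) ≤ ((r : ℤ) * (m + 1)) ^ (2 * r) := by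
      rw [Int.natCast_natAbs]; exact hdet_le
    exact_mod_cast h1
  · intro z hz
    -- `z` is a rational combination of the columns
    obtain ⟨n, hn0, _, hnz⟩ := AddSubgroup.exists_nsmul_mem_of_relIndex_ne_zero hidx hz
    have h1 := mem_span_col (F := F) (m := m) (z := z) (n := n) hn0.ne' hnz.1
    rw [← hspan, Submodule.mem_span_range_iff_exists_fun] at h1
    obtain ⟨c, hc⟩ := h1
    set zR : SL F m → ℤ := fun l => z l.1 with hzR
    set b : κ → ℤ := G.adjugate.mulVec (A.transpose.mulVec zR) with hb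
    -- over ℚ
    set AQ : Matrix (SL F m) κ ℚ := A.map (Int.cast : ℤ → ℚ) with hAQ
    have hAc : AQ.mulVec c = fun l => (zR l : ℚ) := by
      funext l
      have h2 := congrFun hc l
      rw [Finset.sum_apply] at h2
      simp only [Pi.smul_apply, Function.comp_apply, smul_eq_mul, col, coQ_apply] at h2
      simp only [Matrix.mulVec, dotProduct, hAQ, Matrix.map_apply]
      rw [← h2]
      exact Finset.sum_congr rfl fun i _ => mul_comm _ _
    have hGc : (G.map (Int.cast : ℤ → ℚ)).mulVec c = fun i => ((A.transpose.mulVec zR i : ℤ) : ℚ) := by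
      have e : G.map (Int.cast : ℤ → ℚ) = AQ.transpose * AQ := by
        rw [hG, hAQ]
        ext i j
        simp [Matrix.mul_apply]
      rw [e, ← Matrix.mulVec_mulVec, hAc]
      funext i
      simp [Matrix.mulVec, dotProduct, hAQ]
    have hdc : ∀ i, (G.det : ℚ) * c i = (b i : ℚ) := by
      intro i
      have e : (G.adjugate.map (Int.cast : ℤ → ℚ)) * (G.map (Int.cast : ℤ → ℚ)) = (G.det : ℚ) • (1 : Matrix κ κ ℚ) := by
        have h3 : (G.adjugate * G).map (Int.cast : ℤ → ℚ) = (G.det • (1 : Matrix κ κ ℤ)).map (Int.cast : ℤ → ℚ) := by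
          rw [Matrix.adjugate_mul G]
        have h4 : (G.adjugate * G).map (Int.cast : ℤ → ℚ) =
            (G.adjugate.map (Int.cast : ℤ → ℚ)) * (G.map (Int.cast : ℤ → ℚ)) := by
          ext i j
          simp [Matrix.mul_apply]
        rw [← h4, h3]
        ext i j
        rw [Matrix.map_apply, Matrix.smul_apply, Matrix.smul_apply, smul_eq_mul, smul_eq_mul,
          Matrix.one_apply, Matrix.one_apply]
        split_ifs
        · rw [mul_one, mul_one]
        · rw [mul_zero, mul_zero, Int.cast_zero]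
      have h2 : ((G.adjugate.map (Int.cast : ℤ → ℚ)) * (G.map (Int.cast : ℤ → ℚ))).mulVec c i =
          ((G.det : ℚ) • (1 : Matrix κ κ ℚ)).mulVec c i := by rw [e]
      rw [← Matrix.mulVec_mulVec, hGc, Matrix.smul_mulVec, Matrix.one_mulVec, Pi.smul_apply, smul_eq_mul] at h2
      rw [← h2, hb]
      simp [Matrix.mulVec, dotProduct]
    have hzb : G.det • z = D (∑ i, Finsupp.single (a i).1 (b i)) := by
      rw [map_sum]
      ext l
      rw [Finsupp.smul_apply, Finsupp.finsetSum_apply, smul_eq_mul]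
      have h3 : ∀ i, (D (Finsupp.single (a i).1 (b i))) l = b i * bd (a i).1 l := by
        intro i
        rw [D_single, Finsupp.smul_apply, smul_eq_mul]
      simp_rw [h3]
      by_cases hl : F l ∧ l.length = m
      · have h4 := congrFun hAc ⟨l, hl⟩
        simp only [Matrix.mulVec, dotProduct, hAQ, Matrix.map_apply] at h4
        have h6 : ((z l : ℤ) : ℚ) = ∑ i, ((A ⟨l, hl⟩ i : ℤ) : ℚ) * c i := h4.symm
        have h7 : ((G.det : ℤ) : ℚ) * ((z l : ℤ) : ℚ) = ∑ i, ((b i : ℤ) : ℚ) * ((bd (a i).1 l : ℤ) : ℚ) := by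
          rw [h6, Finset.mul_sum]
          apply Finset.sum_congr rfl
          intro i _
          rw [← hdc i]
          show (G.det : ℚ) * (((bd (a i).1 l : ℤ) : ℚ) * c i) = (G.det : ℚ) * c i * ((bd (a i).1 l : ℤ) : ℚ)
          ring
        have h8 : ((G.det * z l : ℤ) : ℚ) = ((∑ i, b i * bd (a i).1 l : ℤ) : ℚ) := by
          rw [Int.cast_mul, h7, Int.cast_sum]
          apply Finset.sum_congr rfl
          intro i _
          rw [Int.cast_mul]
        exact Int.cast_injective h8
      · rw [eq_zero_of_not_mem hz.1 hl, mul_zero]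
        symm
        apply Finset.sum_eq_zero
        intro i _
        have h4 : D (Finsupp.single (a i).1 (1:ℤ)) ∈ CF F m :=
          D_mem_CF hF (single_mem_CF 1 (a i).2.1 (a i).2.2)
        rw [D_single_one] at h4
        rw [eq_zero_of_not_mem h4 hl, mul_zero]
    have hmem : G.det • z ∈ Bd F m := by
      rw [hzb]
      refine ⟨_, ?_, rfl⟩
      exact Submodule.sum_mem _ fun i _ => single_mem_CF _ (a i).2.1 (a i).2.2
    rcases Int.natAbs_eq G.det with h | h
    · rw [← h]; exact hmem
    · have : ((G.det.natAbs : ℕ) : ℤ) = -G.det := by omega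
      rw [this, neg_smul]
      exact neg_mem hmem

/-- **A2** -/
theorem indexBound : Stmt_IndexBound := by
  intro m
  refine ⟨2 * (m + 1), by positivity, ?_⟩
  intro V _ F hF hidx
  obtain ⟨d, hd0, hd, hdz⟩ := exists_det hF m hidx
  have h1 := relIndex_smul F m hd0 (K := (Bd F m).toAddSubgroup) (by
    rintro _ ⟨w, hw, rfl⟩
    exact hdz w hw)
  set r := Fintype.card (SL F m) with hr
  have hrn : r ≤ Fintype.card V ^ m := card_SL_le F m
  have hpos : (0 : ℝ) < ((Bd F m).toAddSubgroup.relIndex (Zc F m).toAddSubgroup : ℕ) := by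
    exact_mod_cast Nat.pos_of_ne_zero h1.1
  rcases Nat.eq_zero_or_pos r with hr0 | hr0
  · have h2 : (Bd F m).toAddSubgroup.relIndex (Zc F m).toAddSubgroup ≤ 1 := by
      have := h1.2
      rwa [hr0, pow_zero] at this
    have h3 : (((Bd F m).toAddSubgroup.relIndex (Zc F m).toAddSubgroup : ℕ) : ℝ) ≤ 1 := by exact_mod_cast h2
    exact (Real.log_nonpos hpos.le h3).trans (by positivity)
  · have h2 : (Bd F m).toAddSubgroup.relIndex (Zc F m).toAddSubgroup ≤ (r * (m + 1)) ^ (2 * r * r) := by
      refine h1.2.trans ?_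
      rw [pow_mul]
      exact Nat.pow_le_pow_left hd r
    have h3 : (((Bd F m).toAddSubgroup.relIndex (Zc F m).toAddSubgroup : ℕ) : ℝ) ≤
        ((r : ℝ) * (m + 1)) ^ (2 * r * r) := by exact_mod_cast h2
    have hr1 : (0 : ℝ) < r := by exact_mod_cast hr0
    have hb : (0 : ℝ) < (r : ℝ) * (m + 1) := by positivity
    refine (Real.log_le_log hpos h3).trans ?_
    rw [Real.log_pow]
    have h4 : Real.log ((r : ℝ) * (m + 1)) ≤ (r : ℝ) * (m + 1) := (Real.log_le_sub_one_of_pos hb).trans (by linarith)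
    have h5 : (r : ℝ) ≤ ((Fintype.card V : ℝ) + 1) ^ m := by
      calc (r : ℝ) ≤ (Fintype.card V : ℝ) ^ m := by exact_mod_cast hrn
        _ ≤ _ := pow_le_pow_left₀ (by positivity) (by linarith) m
    push_cast
    calc (2 * (r : ℝ) * r) * Real.log ((r : ℝ) * (m + 1)) ≤ (2 * (r : ℝ) * r) * ((r : ℝ) * (m + 1)) :=
          mul_le_mul_of_nonneg_left h4 (by positivity)
      _ = 2 * (m + 1) * (r : ℝ) ^ 3 := by ring
      _ ≤ 2 * (m + 1) * (((Fintype.card V : ℝ) + 1) ^ m) ^ 3 := by gcongr
      _ = _ := by rw [← pow_mul, mul_comm m 3]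

end

end Pool.Agent.Work.MP_d1e9a6_pr.H70
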