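import Pool.Agent.Work.MP_d1e9a6_pr.Statements

/-!
# Blocks A2 and A2': the size of a finite homology group, homology modulo 2
-/

set_option autoImplicit false

namespace Pool.Agent.Work.MP_d1e9a6_pr.H70

open Finset

section

variable {V : Type}

/-- the index set of chains of length `m` -/
abbrev SL (F : List V → Prop) (m : ℕ) : Type := {l : List V // F l ∧ l.length = m}

noncomputable instance [Fintype V] (F : List V → Prop) (m : ℕ) : Fintype (SL F m) := by
  classical
  have h : Finite (SL F m) := by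
    have h0 : ({l : List V | l.length = m}).Finite := List.finite_length_eq V m
    have h1 : ({l : List V | F l ∧ l.length = m}).Finite := h0.subset fun l hl => hl.2
    exact h1.to_subtype
  exact Fintype.ofFinite _

lemma card_SL_le [Fintype V] (F : List V → Prop) (m : ℕ) :
    Fintype.card (SL F m) ≤ Fintype.card V ^ m := by
  classical
  have hc : Fintype.card (Fin m → V) = Fintype.card V ^ m := by simp
  rw [← hc]
  apply Fintype.card_le_of_injective
    (fun l : SL F m => Equiv.vectorEquivFin V m (⟨l.1, l.2.2⟩ : List.Vector V m))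
  intro a b h
  have h2 := (Equiv.vectorEquivFin V m).injective h
  have := congrArg Subtype.val h2
  exact Subtype.ext this

/-- coordinates modulo `d` -/
noncomputable def redMod (F : List V → Prop) (m d : ℕ) : Ch V →+ (SL F m → ZMod d) where
  toFun z := fun l => ((z l.1 : ℤ) : ZMod d)
  map_zero' := by funext l; simp
  map_add' a b := by funext l; simp

lemma eq_zero_of_not_mem {F : List V → Prop} {m : ℕ} {z : Ch V} (hz : z ∈ CF F m) {l : List V}
    (hl : ¬ (F l ∧ l.length = m)) : z l = 0 := by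
  by_contra h
  exact hl (mem_CF.mp hz l (Finsupp.mem_support_iff.mpr h))

/-- `d Z = Z ⊓ ker` -/
lemma inf_ker_le (F : List V → Prop) (m : ℕ) {d : ℕ} (hd : d ≠ 0) :
    (redMod F m d).ker ⊓ (Zc F m).toAddSubgroup ≤
      ((Zc F m).map (LinearMap.lsmul ℤ (Ch V) (d : ℤ))).toAddSubgroup := by
  intro z hz
  obtain ⟨hk, hz⟩ := hz
  have hdvd : ∀ l, (d : ℤ) ∣ z l := by
    intro l
    by_cases hl : F l ∧ l.length = m
    · have h1 := congrFun (AddMonoidHom.mem_ker.mp hk) ⟨l, hl⟩
      exact (ZMod.intCast_zmod_eq_zero_iff_dvd _ _).mp h1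
    · rw [eq_zero_of_not_mem hz.1 hl]; exact dvd_zero _
  set w : Ch V := z.mapRange (fun x : ℤ => x / (d : ℤ)) (by simp) with hw
  have hdw : (d : ℤ) • w = z := by
    ext l
    rw [Finsupp.smul_apply, hw, Finsupp.mapRange_apply, smul_eq_mul]
    exact Int.mul_ediv_cancel' (hdvd l)
  have hd' : (d : ℤ) ≠ 0 := by exact_mod_cast hd
  refine ⟨w, ⟨?_, ?_⟩, ?_⟩
  · show w ∈ CF F m
    rw [mem_CF]
    intro l hl
    have h1 : z l ≠ 0 := by
      rw [← hdw, Finsupp.smul_apply, smul_eq_mul]
      exact mul_ne_zero hd' (Finsupp.mem_support_iff.mp hl)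
    exact mem_CF.mp hz.1 l (Finsupp.mem_support_iff.mpr h1)
  · show D w = 0
    have h1 : (d : ℤ) • D w = 0 := by
      rw [← map_smul, hdw]; exact hz.2
    exact (smul_eq_zero.mp h1).resolve_left hd'
  · exact hdw

lemma relIndex_smul [Fintype V] (F : List V → Prop) (m : ℕ) {d : ℕ} (hd : d ≠ 0) {K : AddSubgroup (Ch V)}
    (hK : ((Zc F m).map (LinearMap.lsmul ℤ (Ch V) (d : ℤ))).toAddSubgroup ≤ K) :
    K.relIndex (Zc F m).toAddSubgroup ≠ 0 ∧
      K.relIndex (Zc F m).toAddSubgroup ≤ d ^ (Fintype.card (SL F m)) := by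
  classical
  have : NeZero d := ⟨hd⟩
  have h1 : (redMod F m d).ker ⊓ (Zc F m).toAddSubgroup ≤ K := (inf_ker_le F m hd).trans hK
  have h2 := AddSubgroup.relIndex_dvd_of_le_left (Zc F m).toAddSubgroup h1
  rw [AddSubgroup.inf_relIndex_right, AddSubgroup.relIndex_ker] at h2
  have h3 : Nat.card ((Zc F m).toAddSubgroup.map (redMod F m d)) ≠ 0 := Nat.card_pos.ne'
  have h4 : Nat.card ((Zc F m).toAddSubgroup.map (redMod F m d)) ≤ d ^ (Fintype.card (SL F m)) := by
    have h5 : Nat.card ((Zc F m).toAddSubgroup.map (redMod F m d)) ≤ Nat.card (SL F m → ZMod d) :=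
      Nat.card_le_card_of_injective _ Subtype.val_injective
    rw [Nat.card_fun, Nat.card_zmod, Nat.card_eq_fintype_card (α := SL F m)] at h5
    exact h5
  refine ⟨fun h => h3 (Nat.eq_zero_of_zero_dvd (h ▸ h2)), (Nat.le_of_dvd (Nat.pos_of_ne_zero h3) h2).trans h4⟩

lemma Zc_fg [Fintype V] (F : List V → Prop) (m : ℕ) : (Zc F m).FG := by
  have h1 : (CF F m).FG := by
    have hfin : ({l : List V | F l ∧ l.length = m}).Finite :=
      (List.finite_length_eq V m).subset fun l hl => hl.2
    rw [CF, Finsupp.supported_eq_span_single]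
    exact Submodule.fg_span (hfin.image _)
  have : Module.Finite ℤ (CF F m) := Module.Finite.iff_fg.mpr h1
  have : IsNoetherian ℤ (CF F m) := inferInstance
  have h2 : (Zc F m) ≤ CF F m := inf_le_left
  have h3 : ((Zc F m).comap (CF F m).subtype).FG := IsNoetherian.noetherian _
  have h4 := h3.map (CF F m).subtype
  rwa [Submodule.map_comap_subtype, inf_eq_right.mpr h2] at h4

/-- **A2'** -/
theorem index2 : Stmt_Index2 := by
  intro m V _ F hF
  have h2 := relIndex_smul F m (d := 2) (by norm_num)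
    (K := (Bd F m ⊔ (Zc F m).map (LinearMap.lsmul ℤ (Ch V) 2)).toAddSubgroup) (by
      intro z hz
      exact (le_sup_right : (Zc F m).map (LinearMap.lsmul ℤ (Ch V) 2) ≤
        Bd F m ⊔ (Zc F m).map (LinearMap.lsmul ℤ (Ch V) 2)) (by simpa using hz))
  refine ⟨h2.1, ?_, ?_⟩
  · have h3 : ((Bd F m ⊔ (Zc F m).map (LinearMap.lsmul ℤ (Ch V) 2)).toAddSubgroup.relIndex
      (Zc F m).toAddSubgroup : ℝ) ≤ 2 ^ (Fintype.card V ^ m) := by
      have h4 := h2.2.trans (Nat.pow_le_pow_right (by norm_num : 0 < 2) (card_SL_le F m))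
      exact_mod_cast h4
    have h5 : (0 : ℝ) < ((Bd F m ⊔ (Zc F m).map (LinearMap.lsmul ℤ (Ch V) 2)).toAddSubgroup.relIndex
      (Zc F m).toAddSubgroup : ℕ) := by
      exact_mod_cast Nat.pos_of_ne_zero h2.1
    refine (Real.log_le_log h5 h3).trans (le_of_eq ?_)
    rw [Real.log_pow]
    push_cast
    rfl
  · intro h1
    rw [AddSubgroup.relIndex_eq_one] at h1
    have hle : Zc F m ≤ Bd F m ⊔ (Ideal.span {(2:ℤ)}) • Zc F m := by
      intro z hz
      have h3 : z ∈ Bd F m ⊔ (Zc F m).map (LinearMap.lsmul ℤ (Ch V) 2) := h1 hz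
      have h5 : (Zc F m).map (LinearMap.lsmul ℤ (Ch V) 2) ≤ (Ideal.span {(2:ℤ)}) • Zc F m := by
        rintro _ ⟨w, hw, rfl⟩
        exact Submodule.smul_mem_smul (Ideal.mem_span_singleton_self _) hw
      exact sup_le_sup_left h5 _ h3
    obtain ⟨r, hr1, hr2⟩ := Submodule.exists_sub_one_mem_and_smul_le_of_fg_of_le_sup (Zc_fg F m) le_rfl hle
    have hr0 : r.natAbs ≠ 0 := by
      intro h0
      have h3 : r = 0 := Int.natAbs_eq_zero.mp h0
      rw [h3, Ideal.mem_span_singleton] at hr1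
      omega
    refine (relIndex_smul F m hr0 (K := (Bd F m).toAddSubgroup) ?_).1
    rintro _ ⟨w, hw, rfl⟩
    show ((r.natAbs : ℕ) : ℤ) • w ∈ Bd F m
    have h4 : r • w ∈ Bd F m := hr2 (Submodule.smul_mem_pointwise_smul w r _ hw)
    rcases Int.natAbs_eq r with h | h
    · rw [← h]; exact h4
    · have : ((r.natAbs : ℕ) : ℤ) = -r := by omega
      rw [this, neg_smul]
      exact neg_mem h4

end

end Pool.Agent.Work.MP_d1e9a6_pr.H70
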